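import Pool.Agent.Lib.MP_349281_al.Local
import Pool.Agent.Lib.MP_349281_al.Concise

set_option autoImplicit false

/-!
# Every word is strongly concise in the class of profinite virtually abelian-by-nilpotent groups

The proof.  Let `N` be an open normal subgroup of `G` with a term `A` of its lower central series
abelian.

* (`Kal`) There is an injective derivation `d` from `G` to a module on which `A` acts trivially.
* (`Poly`, `PET`) For `x` in `G^k` the function `m ↦ d (w (x m))` on `N^k` is a sum of terms
  `p(m) c` and `p(m) g d(m_i)`, where `p` is a polynomial map into the nilpotent group `N / A`.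
  An elimination game (in the spirit of PET induction, along the filtration of polynomial maps)
  kills the terms one by one.
* (`Baire`, `Local`) The moves of the game are provided by the fact that a continuous map with fewer
  than continuum many values is constant on a nonempty open set.  Hence `w` is locally constant,
  takes finitely many values, and there is an open marginal subgroup.
* (`Hall`, `Mono`, `Concise`) Finally the verbal subgroup is finite: P. Hall's basis theorem, a
  monolith argument and the theorem of Schur and Zassenhaus show that the values have finite order.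
-/

namespace Pool.Agent.Results.MP_349281_al.StronglyConcise

open Pool.Agent.MP349281

/-- The set `w{G}` of the values of the word `w` in `k` variables. -/
def wordValues {k : ℕ} (w : FreeGroup (Fin k)) (G : Type*) [Group G] : Set G :=
  Set.range fun g : Fin k → G => FreeGroup.lift g w

/-- The verbal subgroup `w(G)`, generated by the values of `w`. -/
def verbalSubgroup {k : ℕ} (w : FreeGroup (Fin k)) (G : Type*) [Group G] : Subgroup G :=
  Subgroup.closure (wordValues w G)

/-- `G` has an open subgroup `H` and a closed normal abelian subgroup `A` of `H` such that `H / A`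
is nilpotent. -/
def IsVirtuallyAbelianByNilpotent (G : Type*) [Group G] [TopologicalSpace G] : Prop :=
  ∃ H : Subgroup G, IsOpen (H : Set G) ∧ ∃ A : Subgroup H, ∃ _ : A.Normal,
    IsClosed (A : Set H) ∧ (∀ a ∈ A, ∀ b ∈ A, a * b = b * a) ∧ Group.IsNilpotent (H ⧸ A)

/-- **Q1 of MP_349281_al, in the affirmative.**  For every word `w` and every profinite virtually
abelian-by-nilpotent group `G`, if `w` has fewer than `2^ℵ₀` values in `G` then the verbal subgroup
`w(G)` is finite. -/
theorem result {k : ℕ} (w : FreeGroup (Fin k)) (G : Type*) [Group G] [TopologicalSpace G]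
    [IsTopologicalGroup G] [CompactSpace G] [T2Space G] [TotallyDisconnectedSpace G]
    (hG : IsVirtuallyAbelianByNilpotent G)
    (hcard : Cardinal.mk (wordValues w G) < 2 ^ Cardinal.aleph0) :
    (verbalSubgroup w G : Set G).Finite := by
  obtain ⟨H, hH, A, hAn, -, hab, hnil⟩ := hG
  have hHfin : Finite (G ⧸ H) := H.quotient_finite_of_isOpen hH
  have hHfi : H.FiniteIndex := Subgroup.finiteIndex_of_finite_quotient
  -- the open normal core
  have hNo : IsOpen (H.normalCore : Set G) := by
    apply Subgroup.isOpen_of_isClosed_of_finiteIndex
    exact H.normalCore_isClosed (Subgroup.isClosed_of_isOpen H hH)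
  obtain ⟨c, hc⟩ := Subgroup.nilpotent_iff_lowerCentralSeries.mp hnil
  have hcA : (⊤ : Subgroup H).lowerCentralSeries c ≤ A := by
    have h1 : ((⊤ : Subgroup H).lowerCentralSeries c).map (QuotientGroup.mk' A) = ⊥ := by
      rw [Subgroup.map_lowerCentralSeries, ← MonoidHom.range_eq_map,
        MonoidHom.range_eq_top.mpr (QuotientGroup.mk'_surjective A), hc]
    rw [Subgroup.map_eq_bot_iff, QuotientGroup.ker_mk'] at h1
    exact h1
  have habN : ∀ (N : Subgroup G), N ≤ H → ∀ a ∈ N.lowerCentralSeries c,
      ∀ b ∈ N.lowerCentralSeries c, a * b = b * a := by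
    intro N hNH a ha b hb
    have h1 : ∀ a ∈ N.lowerCentralSeries c, ∃ a' ∈ A, (a' : G) = a := by
      intro a ha
      have h2 : a ∈ H.lowerCentralSeries c := Subgroup.lowerCentralSeries_mono c hNH ha
      rw [← Subgroup.top_subtype_lowerCentralSeries] at h2
      obtain ⟨a', ha', rfl⟩ := h2
      exact ⟨a', hcA ha', rfl⟩
    obtain ⟨a', ha', rfl⟩ := h1 a ha
    obtain ⟨b', hb', rfl⟩ := h1 b hb
    exact congrArg Subtype.val (hab a' ha' b' hb')
  have hN : H.normalCore.Normal := H.normalCore_normal
  rw [Cardinal.two_power_aleph0] at hcard
  obtain ⟨hfin, U, hUn, hUo, hU⟩ := finite_values hNo (habN _ H.normalCore_le) w hcard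
  -- the marginal subgroup
  have hUfi : (U ⊓ H.normalCore).FiniteIndex := by
    have : Finite (G ⧸ U) := U.quotient_finite_of_isOpen hUo
    have : U.FiniteIndex := Subgroup.finiteIndex_of_finite_quotient
    infer_instance
  have hNn : (U ⊓ H.normalCore).Normal := inferInstance
  have hres : Finite (verbalSubgroup w G) :=
    finite_verbal hNn hUfi (habN _ (inf_le_right.trans H.normalCore_le)) w
      (fun x v hv => hU x v (fun i => (hv i).1)) hfin
  exact Set.finite_coe_iff.mp hres

end Pool.Agent.Results.MP_349281_al.StronglyConcise
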